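import Mathlib

/-
Disproof.  G is the nilpotent group of class 2 on pairs (A, S), A a finite set of naturals,
S a finite set of pairs, with product (A, S)(B, T) = (A + B, S + T + A x B), + being symmetric
difference.  I is the kernel of the natural map from l1(G) to l1(G/N), where N is the central
subgroup of the pairs (0, S).  Two elements of G commute only if their images in G/N are equal or
one of them is trivial, so that an abelian subgroup has an image of order at most two in G/N.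
-/

set_option autoImplicit false

namespace Pool.Agent.Lib_helper49.CentralIdeal

/-- The group: pairs (A, S), A a finite set of naturals, S a finite set of pairs. -/
@[ext] structure Gp : Type where
  fst : Finset ℕ
  snd : Finset (ℕ × ℕ)

namespace Gp

def mul (x y : Gp) : Gp :=
  ⟨symmDiff x.1 y.1, symmDiff (symmDiff x.2 y.2) (x.1 ×ˢ y.1)⟩

def one : Gp := ⟨∅, ∅⟩

def inv (x : Gp) : Gp := ⟨x.1, symmDiff x.2 (x.1 ×ˢ x.1)⟩

theorem mul_assoc' (x y z : Gp) : mul (mul x y) z = mul x (mul y z) := by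
  obtain ⟨A, S⟩ := x
  obtain ⟨B, T⟩ := y
  obtain ⟨C, U⟩ := z
  unfold mul
  refine Gp.ext ?_ ?_
  · simp only [symmDiff_assoc]
  · ext ⟨i, j⟩
    simp only [Finset.mem_symmDiff, Finset.mem_product]
    by_cases h5 : (i, j) ∈ S <;> by_cases h6 : (i, j) ∈ T <;> by_cases h7 : (i, j) ∈ U <;>
    by_cases h1 : i ∈ A <;> by_cases h2 : i ∈ B <;> by_cases h3 : j ∈ B <;> by_cases h4 : j ∈ C <;>
      simp [h1, h2, h3, h4, h5, h6, h7]

theorem one_mul' (x : Gp) : mul one x = x := by
  obtain ⟨A, S⟩ := x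
  unfold mul one
  refine Gp.ext ?_ ?_
  · ext i; simp [Finset.mem_symmDiff]
  · ext ⟨i, j⟩; simp

theorem mul_one' (x : Gp) : mul x one = x := by
  obtain ⟨A, S⟩ := x
  unfold mul one
  refine Gp.ext ?_ ?_
  · ext i; simp [Finset.mem_symmDiff]
  · ext ⟨i, j⟩; simp

theorem inv_mul' (x : Gp) : mul (inv x) x = one := by
  obtain ⟨A, S⟩ := x
  unfold mul one inv
  refine Gp.ext ?_ ?_
  · ext i; simp
  · ext ⟨i, j⟩
    simp only [Finset.mem_symmDiff, Finset.mem_product, Finset.notMem_empty]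
    tauto

instance : Group Gp where
  mul := mul
  one := one
  inv := inv
  mul_assoc := mul_assoc'
  one_mul := one_mul'
  mul_one := mul_one'
  inv_mul_cancel := inv_mul'

theorem mul_def (x y : Gp) : x * y =
  ⟨symmDiff x.1 y.1, symmDiff (symmDiff x.2 y.2) (x.1 ×ˢ y.1)⟩ := rfl

theorem mul_fst (x y : Gp) : (x * y).1 = symmDiff x.1 y.1 := rfl

theorem inv_fst (x : Gp) : (x⁻¹).1 = x.1 := rfl

theorem one_fst : (1 : Gp).1 = ∅ := rfl

/-- commuting elements have dependent first coordinates -/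
theorem comm_fst (x y : Gp) (h : x * y = y * x) (hx : x.1.Nonempty) (hy : y.1.Nonempty) :
    x.1 = y.1 := by
  obtain ⟨A, S⟩ := x
  obtain ⟨B, T⟩ := y
  have h2 : symmDiff (symmDiff S T) (A ×ˢ B) = symmDiff (symmDiff T S) (B ×ˢ A) :=
    congrArg Gp.snd h
  have h3 : A ×ˢ B = B ×ˢ A := by
    ext ⟨i, j⟩
    have := Finset.ext_iff.1 h2 (i, j)
    simp only [Finset.mem_symmDiff] at this
    tauto
  obtain ⟨a, ha⟩ := hx
  obtain ⟨b, hb⟩ := hy
  show A = B
  ext i
  constructor
  · intro hi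
    have : (i, b) ∈ A ×ˢ B := Finset.mem_product.2 ⟨hi, hb⟩
    rw [h3] at this
    exact (Finset.mem_product.1 this).1
  · intro hi
    have : (i, a) ∈ B ×ˢ A := Finset.mem_product.2 ⟨hi, ha⟩
    rw [← h3] at this
    exact (Finset.mem_product.1 this).1

/-- forgetting the group structure -/
def equivProd : Finset ℕ × Finset (ℕ × ℕ) ≃ Gp where
  toFun p := ⟨p.1, p.2⟩
  invFun x := (x.1, x.2)
  left_inv _ := rfl
  right_inv _ := rfl

end Gp

section aux

open Filter Topology Classical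

/-- finite subgroups exhausting the group -/
noncomputable def Fn (n : ℕ) : Finset Gp :=
  ((Finset.range n).powerset ×ˢ (Finset.range n ×ˢ Finset.range n).powerset).map
    Gp.equivProd.toEmbedding

theorem mem_Fn (n : ℕ) (x : Gp) :
    x ∈ Fn n ↔ x.1 ⊆ Finset.range n ∧ x.2 ⊆ Finset.range n ×ˢ Finset.range n := by
  unfold Fn
  rw [Finset.mem_map_equiv, Finset.mem_product, Finset.mem_powerset, Finset.mem_powerset]
  rfl

theorem one_mem_Fn (n : ℕ) : (1 : Gp) ∈ Fn n := by
  rw [mem_Fn]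
  exact ⟨Finset.empty_subset _, Finset.empty_subset _⟩

theorem mul_mem_Fn (n : ℕ) (x y : Gp) (hx : x ∈ Fn n) (hy : y ∈ Fn n) : x * y ∈ Fn n := by
  rw [mem_Fn] at *
  obtain ⟨A, S⟩ := x
  obtain ⟨B, T⟩ := y
  change A ⊆ _ ∧ S ⊆ _ at hx
  change B ⊆ _ ∧ T ⊆ _ at hy
  change symmDiff A B ⊆ _ ∧ symmDiff (symmDiff S T) (A ×ˢ B) ⊆ _
  constructor
  · intro i hi
    rw [Finset.mem_symmDiff] at hi
    rcases hi with hi | hi
    · exact hx.1 hi.1
    · exact hy.1 hi.1
  · rintro ⟨i, j⟩ hi
    rw [Finset.mem_symmDiff, Finset.mem_symmDiff] at hi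
    rcases hi with ⟨hi | hi, _⟩ | ⟨hi, _⟩
    · exact hx.2 hi.1
    · exact hy.2 hi.1
    · rw [Finset.mem_product] at hi ⊢
      exact ⟨hx.1 hi.1, hy.1 hi.2⟩

theorem inv_mem_Fn (n : ℕ) (x : Gp) (hx : x ∈ Fn n) : x⁻¹ ∈ Fn n := by
  rw [mem_Fn] at *
  obtain ⟨A, S⟩ := x
  change A ⊆ _ ∧ S ⊆ _ at hx
  change A ⊆ _ ∧ symmDiff S (A ×ˢ A) ⊆ _
  refine ⟨hx.1, ?_⟩
  rintro ⟨i, j⟩ hi
  rw [Finset.mem_symmDiff] at hi
  rcases hi with hi | hi
  · exact hx.2 hi.1
  · have := hi.1
    rw [Finset.mem_product] at this ⊢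
    exact ⟨hx.1 this.1, hx.1 this.2⟩

theorem exists_mem_Fn (x : Gp) : ∃ n₀, ∀ n ≥ n₀, x ∈ Fn n := by
  obtain ⟨A, S⟩ := x
  refine ⟨max (A.sup id + 1) (max (S.sup Prod.fst + 1) (S.sup Prod.snd + 1)), ?_⟩
  intro n hn
  rw [mem_Fn]
  change A ⊆ _ ∧ S ⊆ _
  constructor
  · intro i hi
    have : i ≤ A.sup id := Finset.le_sup (f := id) hi
    rw [Finset.mem_range]
    omega
  · rintro ⟨i, j⟩ hi
    have h1 : i ≤ S.sup Prod.fst := Finset.le_sup (f := Prod.fst) hi
    have h2 : j ≤ S.sup Prod.snd := Finset.le_sup (f := Prod.snd) hi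
    rw [Finset.mem_product, Finset.mem_range, Finset.mem_range]
    constructor <;> (simp only; omega)

/-- density of a set in the n-th finite subgroup -/
noncomputable def dens (A : Set Gp) (n : ℕ) : ℝ :=
  (((Fn n).filter (fun x => x ∈ A)).card : ℝ) / ((Fn n).card : ℝ)

theorem card_Fn_pos (n : ℕ) : (0 : ℝ) < ((Fn n).card : ℝ) := by
  have : 0 < (Fn n).card := Finset.card_pos.2 ⟨1, one_mem_Fn n⟩
  exact_mod_cast this

theorem dens_mem (A : Set Gp) (n : ℕ) : dens A n ∈ Set.Icc (0 : ℝ) 1 := by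
  constructor
  · unfold dens; positivity
  · unfold dens
    rw [div_le_one (card_Fn_pos n)]
    exact_mod_cast Finset.card_filter_le _ _

theorem exists_lim (A : Set Gp) :
    ∃ L ∈ Set.Icc (0 : ℝ) 1, Tendsto (dens A) (hyperfilter ℕ : Filter ℕ) (𝓝 L) := by
  have hc : IsCompact (Set.Icc (0 : ℝ) 1) := isCompact_Icc
  have := hc.ultrafilter_le_nhds ((hyperfilter ℕ).map (dens A)) (by
    rw [Filter.le_principal_iff]
    show ∀ᶠ n in (hyperfilter ℕ : Filter ℕ), dens A n ∈ Set.Icc (0:ℝ) 1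
    exact Eventually.of_forall (dens_mem A))
  obtain ⟨L, hL, h⟩ := this
  exact ⟨L, hL, h⟩

noncomputable def mean (A : Set Gp) : ℝ := Classical.choose (exists_lim A)

theorem mean_mem (A : Set Gp) : mean A ∈ Set.Icc (0 : ℝ) 1 := (Classical.choose_spec (exists_lim A)).1

theorem mean_tendsto (A : Set Gp) : Tendsto (dens A) (hyperfilter ℕ : Filter ℕ) (𝓝 (mean A)) :=
  (Classical.choose_spec (exists_lim A)).2

theorem dens_translate (g : Gp) (A : Set Gp) (n : ℕ) (hg : g ∈ Fn n) :
    dens ((fun x => g * x) '' A) n = dens A n := by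
  unfold dens
  congr 2
  symm
  apply Finset.card_bij (fun x _ => g * x)
  · intro x hx
    rw [Finset.mem_filter] at hx ⊢
    exact ⟨mul_mem_Fn n g x hg hx.1, ⟨x, hx.2, rfl⟩⟩
  · intro x _ y _ h
    exact mul_left_cancel h
  · intro y hy
    rw [Finset.mem_filter] at hy
    obtain ⟨hy1, x, hx, rfl⟩ := hy
    refine ⟨x, ?_, rfl⟩
    rw [Finset.mem_filter]
    refine ⟨?_, hx⟩
    have := mul_mem_Fn n g⁻¹ (g * x) (inv_mem_Fn n g hg) hy1
    rwa [inv_mul_cancel_left] at this

theorem amenable : ∃ μ : Set Gp → ℝ, (∀ A, 0 ≤ μ A) ∧ μ Set.univ = 1 ∧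
        (∀ A B : Set Gp, Disjoint A B → μ (A ∪ B) = μ A + μ B) ∧
        (∀ (g : Gp) (A : Set Gp), μ ((fun x => g * x) '' A) = μ A) := by
  refine ⟨mean, fun A => (mean_mem A).1, ?_, ?_, ?_⟩
  · refine tendsto_nhds_unique (mean_tendsto Set.univ) ?_
    have : dens Set.univ = fun _ => (1 : ℝ) := by
      funext n
      unfold dens
      simp only [Set.mem_univ, Finset.filter_true]
      exact div_self (card_Fn_pos n).ne'
    rw [this]
    exact tendsto_const_nhds
  · intro A B hAB
    refine tendsto_nhds_unique (mean_tendsto (A ∪ B)) ?_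
    have : dens (A ∪ B) = fun n => dens A n + dens B n := by
      funext n
      unfold dens
      rw [← add_div]
      congr 1
      rw [← Nat.cast_add]
      congr 1
      rw [← Finset.card_union_of_disjoint]
      · congr 1
        ext x
        simp only [Finset.mem_filter, Finset.mem_union, Set.mem_union]
        tauto
      · rw [Finset.disjoint_filter]
        intro x _ hx hx2
        exact Set.disjoint_left.1 hAB hx hx2
    rw [this]
    exact (mean_tendsto A).add (mean_tendsto B)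
  · intro g A
    refine tendsto_nhds_unique (mean_tendsto _) ?_
    refine (mean_tendsto A).congr' ?_
    have h1 : (hyperfilter ℕ : Filter ℕ) ≤ atTop := by
      rw [← Nat.cofinite_eq_atTop]
      exact hyperfilter_le_cofinite
    apply h1
    obtain ⟨n₀, hn₀⟩ := exists_mem_Fn g
    rw [Filter.mem_atTop_sets]
    refine ⟨n₀, fun n hn => ?_⟩
    exact (dens_translate g A n (hn₀ n hn)).symm

noncomputable abbrev L := lp (fun _ : Gp => ℂ) 1

theorem summable_norm (f : L) : Summable (fun x : Gp => ‖f x‖) := by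
  have h := (lp.memℓp f).summable (by norm_num)
  simpa using h

theorem summable_row (f : L) (A : Finset ℕ) : Summable (fun S => f ⟨A, S⟩) := by
  have h := (summable_norm f).of_norm
  exact h.comp_injective (i := fun S => (⟨A, S⟩ : Gp)) (fun S T h => congrArg Gp.snd h)

theorem norm_eq (f : L) : ‖f‖ = ∑' x, ‖f x‖ := by
  have h := lp.norm_eq_tsum_rpow (p := 1) (by norm_num) f
  simpa using h

/-- sum over a coset of the centre -/
noncomputable def phi (A : Finset ℕ) : L →ₗ[ℂ] ℂ where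
  toFun f := ∑' S, f ⟨A, S⟩
  map_add' f g := by
    rw [← (summable_row f A).tsum_add (summable_row g A)]
    rfl
  map_smul' c f := by
    rw [RingHom.id_apply, smul_eq_mul, ← tsum_mul_left]
    rfl

theorem phi_bound (A : Finset ℕ) (f : L) : ‖phi A f‖ ≤ 1 * ‖f‖ := by
  rw [one_mul, norm_eq]
  have h1 : Summable (fun S => ‖f ⟨A, S⟩‖) :=
    (summable_norm f).comp_injective (i := fun S => (⟨A, S⟩ : Gp)) (fun S T h => congrArg Gp.snd h)
  refine (norm_tsum_le_tsum_norm h1).trans ?_
  exact tsum_comp_le_tsum_of_inj (summable_norm f) (fun _ => norm_nonneg _)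
    (i := fun S => (⟨A, S⟩ : Gp)) (fun S T h => congrArg Gp.snd h)

noncomputable def phiC (A : Finset ℕ) : L →L[ℂ] ℂ := (phi A).mkContinuous 1 (phi_bound A)

noncomputable def Id : Submodule ℂ L := ⨅ A : Finset ℕ, LinearMap.ker (phi A)

theorem mem_Id (f : L) : f ∈ Id ↔ ∀ A, phi A f = 0 := by
  unfold Id
  simp only [Submodule.mem_iInf, LinearMap.mem_ker]

theorem closed_Id : IsClosed (Id : Set L) := by
  have : (Id : Set L) = ⋂ A : Finset ℕ, (phiC A) ⁻¹' {0} := by
    ext f
    rw [SetLike.mem_coe, mem_Id]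
    simp only [Set.mem_iInter, Set.mem_preimage, Set.mem_singleton_iff]
    rfl
  rw [this]
  exact isClosed_iInter (fun A => isClosed_singleton.preimage (phiC A).continuous)

/-- left translation permutes cosets of the centre -/
def rowEquivL (y : Gp) (A : Finset ℕ) : Finset (ℕ × ℕ) ≃ Finset (ℕ × ℕ) where
  toFun S := (y⁻¹ * ⟨A, S⟩ : Gp).snd
  invFun T := (y * ⟨symmDiff y.fst A, T⟩ : Gp).snd
  left_inv S := by
    have h : (⟨symmDiff y.fst A, (y⁻¹ * ⟨A, S⟩ : Gp).snd⟩ : Gp) = y⁻¹ * ⟨A, S⟩ := rfl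
    show (y * ⟨symmDiff y.fst A, (y⁻¹ * ⟨A, S⟩ : Gp).snd⟩ : Gp).snd = S
    rw [h, mul_inv_cancel_left]
  right_inv T := by
    have h : (⟨A, (y * ⟨symmDiff y.fst A, T⟩ : Gp).snd⟩ : Gp) = y * ⟨symmDiff y.fst A, T⟩ := by
      refine Gp.ext ?_ rfl
      show A = symmDiff y.fst (symmDiff y.fst A)
      rw [symmDiff_symmDiff_cancel_left]
    show (y⁻¹ * ⟨A, (y * ⟨symmDiff y.fst A, T⟩ : Gp).snd⟩ : Gp).snd = T
    rw [h, inv_mul_cancel_left]

theorem phi_translateL (g : L) (y : Gp) (A : Finset ℕ) :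
    ∑' S, g (y⁻¹ * ⟨A, S⟩) = phi (symmDiff y.fst A) g := by
  exact (rowEquivL y A).tsum_eq (fun S => g ⟨symmDiff y.fst A, S⟩)

/-- right translation permutes cosets of the centre -/
def rowEquivR (y : Gp) (A : Finset ℕ) : Finset (ℕ × ℕ) ≃ Finset (ℕ × ℕ) where
  toFun S := (⟨A, S⟩ * y : Gp).snd
  invFun T := (⟨symmDiff A y.fst, T⟩ * y⁻¹ : Gp).snd
  left_inv S := by
    have h : (⟨symmDiff A y.fst, (⟨A, S⟩ * y : Gp).snd⟩ : Gp) = ⟨A, S⟩ * y := rfl
    show (⟨symmDiff A y.fst, (⟨A, S⟩ * y : Gp).snd⟩ * y⁻¹ : Gp).snd = S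
    rw [h, mul_inv_cancel_right]
  right_inv T := by
    have h : (⟨A, (⟨symmDiff A y.fst, T⟩ * y⁻¹ : Gp).snd⟩ : Gp) = ⟨symmDiff A y.fst, T⟩ * y⁻¹ := by
      refine Gp.ext ?_ rfl
      show A = symmDiff (symmDiff A y.fst) y.fst
      rw [symmDiff_symmDiff_cancel_right]
    show (⟨A, (⟨symmDiff A y.fst, T⟩ * y⁻¹ : Gp).snd⟩ * y : Gp).snd = T
    rw [h, inv_mul_cancel_right]

theorem phi_translateR (g : L) (y : Gp) (A : Finset ℕ) :
    ∑' S, g (⟨A, S⟩ * y) = phi (symmDiff A y.fst) g := by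
  exact (rowEquivR y A).tsum_eq (fun S => g ⟨symmDiff A y.fst, S⟩)

theorem summable_prod (f g : L) : Summable (fun p : Gp × Gp => f p.1 * g p.2) :=
  summable_mul_of_summable_norm (summable_norm f) (summable_norm g)

def mapL (A : Finset ℕ) (p : Gp × Finset (ℕ × ℕ)) : Gp × Gp := (p.1, p.1⁻¹ * Gp.mk A p.2)

theorem mapL_inj (A : Finset ℕ) : Function.Injective (mapL A) := by
  rintro ⟨y, S⟩ ⟨z, T⟩ hp
  have h2 : y = z := congrArg Prod.fst hp
  subst h2
  have h3 : y⁻¹ * Gp.mk A S = y⁻¹ * Gp.mk A T := congrArg Prod.snd hp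
  have h4 : Gp.mk A S = Gp.mk A T := mul_left_cancel h3
  have h5 : S = T := congrArg Gp.snd h4
  rw [h5]

def mapR (A : Finset ℕ) (p : Gp × Finset (ℕ × ℕ)) : Gp × Gp := (Gp.mk A p.2 * p.1, p.1⁻¹)

theorem mapR_inj (A : Finset ℕ) : Function.Injective (mapR A) := by
  rintro ⟨y, S⟩ ⟨z, T⟩ hp
  have h2 : y⁻¹ = z⁻¹ := congrArg Prod.snd hp
  have h2 : y = z := inv_injective h2
  subst h2
  have h3 : Gp.mk A S * y = Gp.mk A T * y := congrArg Prod.fst hp
  have h4 : Gp.mk A S = Gp.mk A T := mul_right_cancel h3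
  have h5 : S = T := congrArg Gp.snd h4
  rw [h5]

theorem summable_left (f g : L) (A : Finset ℕ) :
    Summable (Function.uncurry fun (y : Gp) (S : Finset (ℕ × ℕ)) => f y * g (y⁻¹ * Gp.mk A S)) := by
  have h := (summable_prod f g).comp_injective (mapL_inj A)
  have e : ((fun p : Gp × Gp => f p.1 * g p.2) ∘ mapL A) =
      Function.uncurry fun (y : Gp) (S : Finset (ℕ × ℕ)) => f y * g (y⁻¹ * Gp.mk A S) := by
    funext p
    obtain ⟨y, S⟩ := p
    simp only [Function.comp, mapL, Function.uncurry_apply_pair]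
  rw [e] at h
  exact h

theorem summable_right (f g : L) (A : Finset ℕ) :
    Summable (Function.uncurry fun (y : Gp) (S : Finset (ℕ × ℕ)) =>
      g (Gp.mk A S * y) * f (y⁻¹)) := by
  have h := (summable_prod g f).comp_injective (mapR_inj A)
  have e : ((fun p : Gp × Gp => g p.1 * f p.2) ∘ mapR A) =
      Function.uncurry fun (y : Gp) (S : Finset (ℕ × ℕ)) => g (Gp.mk A S * y) * f (y⁻¹) := by
    funext p
    obtain ⟨y, S⟩ := p
    simp only [Function.comp, mapR, Function.uncurry_apply_pair]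
  rw [e] at h
  exact h

theorem left_ideal (f g : L) (hg : g ∈ Id) (h : L)
    (hh : ∀ x : Gp, h x = ∑' y : Gp, f y * g (y⁻¹ * x)) : h ∈ Id := by
  rw [mem_Id] at *
  intro A
  have e1 : phi A h = ∑' S, ∑' y : Gp, f y * g (y⁻¹ * Gp.mk A S) := by
    show ∑' S, h ⟨A, S⟩ = _
    exact tsum_congr (fun S => hh _)
  rw [e1, (summable_left f g A).tsum_comm]
  have h2 : ∀ y : Gp, ∑' S, f y * g (y⁻¹ * Gp.mk A S) = 0 := by
    intro y
    rw [tsum_mul_left, phi_translateL, hg, mul_zero]
  exact (tsum_congr h2).trans tsum_zero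

theorem right_ideal (f g : L) (hg : g ∈ Id) (h : L)
    (hh : ∀ x : Gp, h x = ∑' y : Gp, g y * f (y⁻¹ * x)) : h ∈ Id := by
  rw [mem_Id] at *
  intro A
  have e1 : phi A h = ∑' S, ∑' y : Gp, g (Gp.mk A S * y) * f (y⁻¹) := by
    show ∑' S, h ⟨A, S⟩ = _
    refine tsum_congr (fun S => ?_)
    rw [hh]
    have := (Equiv.mulLeft (Gp.mk A S)).tsum_eq (fun y => g y * f (y⁻¹ * Gp.mk A S))
    rw [← this]
    refine tsum_congr (fun y => ?_)
    rw [Equiv.coe_mulLeft, mul_inv_rev, inv_mul_cancel_right]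
  rw [e1, (summable_right f g A).tsum_comm]
  have h2 : ∀ y : Gp, ∑' S, g (Gp.mk A S * y) * f (y⁻¹) = 0 := by
    intro y
    rw [tsum_mul_right, phi_translateR, hg, zero_mul]
  exact (tsum_congr h2).trans tsum_zero

noncomputable def delta (x : Gp) : L := lp.single 1 x (1 : ℂ)

theorem phi_delta (A : Finset ℕ) (x : Gp) : phi A (delta x) = if x.fst = A then 1 else 0 := by
  show ∑' S, (delta x) ⟨A, S⟩ = _
  split_ifs with h
  · rw [tsum_eq_single x.snd]
    · have : (⟨A, x.snd⟩ : Gp) = x := Gp.ext h.symm rfl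
      rw [this]
      exact lp.single_apply_self (E := fun _ : Gp => ℂ) 1 x (1 : ℂ)
    · intro S hS
      apply lp.single_apply_ne
      intro h2
      apply hS
      rw [← h2]
  · have : ∀ S, (delta x) ⟨A, S⟩ = 0 := by
      intro S
      apply lp.single_apply_ne
      intro h2
      apply h
      rw [← h2]
    simp only [this, tsum_zero]

theorem delta_supp (H : Subgroup Gp) (g : Gp) (hg : g ∈ H) (x : Gp) (hx : x ∉ H) :
    (delta g) x = 0 := by
  apply lp.single_apply_ne
  rintro rfl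
  exact hx hg

theorem abelian_finite (H : Subgroup Gp) (hH : ∀ a ∈ H, ∀ b ∈ H, a * b = b * a) :
    ∃ s : Finset L, (∀ v ∈ s, ∀ x : Gp, x ∉ H → v x = 0) ∧
      ∀ f : L, (∀ x : Gp, x ∉ H → f x = 0) → f ∈ Id ⊔ Submodule.span ℂ (s : Set L) := by
  by_cases hex : ∃ h ∈ H, h.fst.Nonempty
  · obtain ⟨h, hh, hne⟩ := hex
    refine ⟨{delta 1, delta h}, ?_, ?_⟩
    · intro v hv x hx
      rw [Finset.mem_insert, Finset.mem_singleton] at hv
      rcases hv with rfl | rfl
      · exact delta_supp H 1 H.one_mem x hx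
      · exact delta_supp H h hh x hx
    · intro f hf
      have key : f - ((phi ∅ f) • delta 1 + (phi h.fst f) • delta h) ∈ Id := by
        rw [mem_Id]
        intro A
        rw [map_sub, map_add, map_smul, map_smul, phi_delta, phi_delta, Gp.one_fst]
        by_cases hA : ∅ = A
        · subst hA
          rw [if_pos rfl, if_neg hne.ne_empty]
          simp
        · rw [if_neg hA]
          by_cases hA2 : h.fst = A
          · rw [if_pos hA2, hA2]
            simp
          · rw [if_neg hA2]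
            have : phi A f = 0 := by
              show ∑' S, f ⟨A, S⟩ = 0
              have h0 : ∀ S, f ⟨A, S⟩ = 0 := by
                intro S
                apply hf
                intro hmem
                apply hA2
                refine Gp.comm_fst h ⟨A, S⟩ (hH _ hh _ hmem) hne ?_
                exact Finset.nonempty_iff_ne_empty.2 (fun h => hA h.symm)
              simp only [h0, tsum_zero]
            rw [this]
            simp
      rw [Submodule.mem_sup]
      refine ⟨_, key, ((phi ∅ f) • delta 1 + (phi h.fst f) • delta h), ?_, by abel⟩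
      refine Submodule.add_mem _ (Submodule.smul_mem _ _ (Submodule.subset_span ?_))
        (Submodule.smul_mem _ _ (Submodule.subset_span ?_))
      · simp
      · simp
  · push Not at hex
    refine ⟨{delta 1}, ?_, ?_⟩
    · intro v hv x hx
      rw [Finset.mem_singleton] at hv
      subst hv
      exact delta_supp H 1 H.one_mem x hx
    · intro f hf
      have key : f - (phi ∅ f) • delta 1 ∈ Id := by
        rw [mem_Id]
        intro A
        rw [map_sub, map_smul, phi_delta, Gp.one_fst]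
        by_cases hA : ∅ = A
        · subst hA
          rw [if_pos rfl]
          simp
        · rw [if_neg hA]
          have : phi A f = 0 := by
            show ∑' S, f ⟨A, S⟩ = 0
            have h0 : ∀ S, f ⟨A, S⟩ = 0 := by
              intro S
              apply hf
              intro hmem
              apply hA
              have := hex _ hmem
              exact (Finset.not_nonempty_iff_eq_empty.1 (by simpa using this)).symm
            simp only [h0, tsum_zero]
          rw [this]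
          simp
      rw [Submodule.mem_sup]
      refine ⟨_, key, (phi ∅ f) • delta 1, ?_, by abel⟩
      refine (Submodule.smul_mem _ _ (Submodule.subset_span ?_))
      simp

noncomputable def Psi : L →ₗ[ℂ] (Finset ℕ → ℂ) := LinearMap.pi phi

theorem Id_le_ker : Id ≤ LinearMap.ker Psi := by
  intro f hf
  rw [mem_Id] at hf
  rw [LinearMap.mem_ker]
  funext A
  exact hf A

theorem quotient_not_finite : ¬ FiniteDimensional ℂ (L ⧸ Id) := by
  intro hfin
  have hli : LinearIndependent ℂ (fun A : Finset ℕ => (Submodule.mkQ Id) (delta ⟨A, ∅⟩)) := by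
    apply LinearIndependent.of_comp (Submodule.liftQ Id Psi Id_le_ker)
    have : (⇑(Submodule.liftQ Id Psi Id_le_ker) ∘ fun A : Finset ℕ => (Submodule.mkQ Id) (delta ⟨A, ∅⟩))
        = fun A : Finset ℕ => Pi.single A (1 : ℂ) := by
      funext A B
      show phi B (delta ⟨A, ∅⟩) = _
      rw [phi_delta]
      simp only [Pi.single_apply]
      by_cases h : A = B
      · subst h; simp
      · rw [if_neg h, if_neg (Ne.symm h)]
    rw [this]
    exact Pi.linearIndependent_single_one (Finset ℕ) ℂ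
  have := hli.finite
  exact not_finite (Finset ℕ)

end aux

end Pool.Agent.Lib_helper49.CentralIdeal
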